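import Pool.Agent.H93.HQ.Targets

/-!
# Module RI of the board hq_modules: the one-dimensional inequality
-/

set_option autoImplicit false

namespace Pool.Agent.H50.HQ
open MeasureTheory Set Filter Topology Pool.Agent.H80.HS Pool.Agent.H93.HQ
open scoped ContDiff ENNReal

/-- The cutoff. -/
noncomputable def eta (k : ℕ) (s : ℝ) : ℝ :=
  Real.smoothTransition ((k + 1) * s - 1) * Real.smoothTransition ((k + 1) - s)

theorem eta_smooth (k : ℕ) : ContDiff ℝ ∞ (eta k) := by
  unfold eta
  apply ContDiff.mul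
  · exact Real.smoothTransition.contDiff.comp (by fun_prop)
  · exact Real.smoothTransition.contDiff.comp (by fun_prop)

theorem eta_nonneg (k : ℕ) (s : ℝ) : 0 ≤ eta k s :=
  mul_nonneg (Real.smoothTransition.nonneg _) (Real.smoothTransition.nonneg _)

theorem eta_le_one (k : ℕ) (s : ℝ) : eta k s ≤ 1 :=
  mul_le_one₀ (Real.smoothTransition.le_one _) (Real.smoothTransition.nonneg _)
    (Real.smoothTransition.le_one _)

theorem eta_zero_left (k : ℕ) (s : ℝ) (h : s ≤ 1 / (k + 1)) : eta k s = 0 := by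
  have hk : (0 : ℝ) < (k : ℝ) + 1 := by positivity
  have h1 : ((k : ℝ) + 1) * s - 1 ≤ 0 := by
    have h2 := mul_le_mul_of_nonneg_left h hk.le
    have h3 : ((k : ℝ) + 1) * (1 / (k + 1)) = 1 := by field_simp
    linarith
  unfold eta
  rw [Real.smoothTransition.zero_of_nonpos h1, zero_mul]

theorem eta_zero_right (k : ℕ) (s : ℝ) (h : (k : ℝ) + 1 ≤ s) : eta k s = 0 := by
  unfold eta
  rw [Real.smoothTransition.zero_of_nonpos (x := (k : ℝ) + 1 - s) (by linarith), mul_zero]

theorem eta_mono (s : ℝ) (hs : 0 < s) : Monotone (fun k : ℕ => eta k s) := by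
  intro j k hjk
  have h1 : (j : ℝ) ≤ k := by exact_mod_cast hjk
  show eta j s ≤ eta k s
  unfold eta
  apply mul_le_mul
  · apply Real.smoothTransition.monotone
    nlinarith
  · apply Real.smoothTransition.monotone
    linarith
  · exact Real.smoothTransition.nonneg _
  · exact Real.smoothTransition.nonneg _

theorem eta_eventually (s : ℝ) (hs : 0 < s) : ∀ᶠ k : ℕ in atTop, eta k s = 1 := by
  obtain ⟨K, hK⟩ := exists_nat_ge (max (2 / s) s)
  filter_upwards [eventually_ge_atTop K] with k hk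
  have h1 : (K : ℝ) ≤ k := by exact_mod_cast hk
  have h2 : 2 / s ≤ (k : ℝ) := le_trans (le_trans (le_max_left _ _) hK) h1
  have h3 : s ≤ (k : ℝ) := le_trans (le_trans (le_max_right _ _) hK) h1
  have h4 : 2 ≤ (k : ℝ) * s := by
    rw [div_le_iff₀ hs] at h2
    exact h2
  unfold eta
  rw [Real.smoothTransition.one_of_one_le (x := ((k : ℝ) + 1) * s - 1) (by nlinarith),
    Real.smoothTransition.one_of_one_le (x := (k : ℝ) + 1 - s) (by linarith), mul_one]

theorem pf_RI (h : U_RC) : U_RI := by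
  intro n hn p C hp1 hp2 hS χ hχ hχ0
  have hq : (0 : ℝ) ≤ (2 * (n : ℝ) + 2) * p / (2 * n + 2 - p) := by
    apply div_nonneg
    · positivity
    · linarith
  -- the cut off functions
  have hsm : ∀ k : ℕ, ContDiff ℝ ∞ (fun s => χ s * eta k s) := by
    intro k
    rw [contDiff_iff_contDiffAt]
    intro s
    by_cases hs : 0 < s
    · exact (hχ.contDiffAt (Ioi_mem_nhds hs)).mul (eta_smooth k).contDiffAt
    · have hs' : s < 1 / ((k : ℝ) + 1) := lt_of_le_of_lt (not_lt.mp hs) (by positivity)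
      have he : (fun s => χ s * eta k s) =ᶠ[𝓝 s] fun _ => (0 : ℝ) := by
        filter_upwards [Iio_mem_nhds hs'] with t ht
        rw [eta_zero_left k t (le_of_lt ht), mul_zero]
      exact contDiffAt_const.congr_of_eventuallyEq he
  have hz : ∀ (k : ℕ) (s : ℝ), s ∉ Icc (1 / ((k : ℝ) + 1)) ((k : ℝ) + 1) →
      χ s * eta k s = 0 := by
    intro k s hs
    rw [mem_Icc, not_and_or, not_le, not_le] at hs
    rcases hs with hs | hs
    · rw [eta_zero_left k s hs.le, mul_zero]
    · rw [eta_zero_right k s hs.le, mul_zero]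
  have hcs : ∀ k : ℕ, HasCompactSupport (fun s => χ s * eta k s) := fun k =>
    HasCompactSupport.intro isCompact_Icc (hz k)
  have hts : ∀ k : ℕ, tsupport (fun s => χ s * eta k s) ⊆ Ioi 0 := by
    intro k
    have h1 : tsupport (fun s => χ s * eta k s) ⊆ Icc (1 / ((k : ℝ) + 1)) ((k : ℝ) + 1) := by
      apply closure_minimal _ isClosed_Icc
      intro s hs
      by_contra hcon
      exact hs (hz k s hcon)
    intro s hs
    have h2 := (h1 hs).1
    exact lt_of_lt_of_le (by positivity) h2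
  have hnn : ∀ (k : ℕ) (r : ℝ), 0 ≤ χ r * eta k r := by
    intro k r
    by_cases hr : 0 < r
    · exact mul_nonneg (hχ0 r hr) (eta_nonneg k r)
    · have hr' : r ≤ 1 / ((k : ℝ) + 1) := (not_lt.mp hr).trans (by positivity)
      rw [eta_zero_left k r hr', mul_zero]
  have hle : ∀ (k : ℕ) (r : ℝ), 0 < r → χ r * eta k r ≤ χ r := fun k r hr =>
    mul_le_of_le_one_right (hχ0 r hr) (eta_le_one k r)
  have key : ∀ k : ℕ, (ENNReal.ofReal (sg n 0) * ∫⁻ r in Ioi (0 : ℝ),
      (∫⁻ s in Ioi r, ENNReal.ofReal (χ s * eta k s)) ^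
        ((2 * (n : ℝ) + 2) * p / (2 * n + 2 - p)) *
        ENNReal.ofReal (r ^ (2 * (n : ℝ) + 1))) ^ ((2 * (n : ℝ) + 2 - p) / (2 * n + 2)) ≤
      ENNReal.ofReal (C * sg n p) *
      ∫⁻ r in Ioi (0 : ℝ), ENNReal.ofReal (χ r ^ p * r ^ (2 * (n : ℝ) + 1)) := by
    intro k
    refine (h n hn p C hp1 hp2 hS (fun s => χ s * eta k s) (hsm k) (hcs k) (hts k)
      (hnn k)).trans ?_
    apply mul_le_mul_right
    apply setLIntegral_mono' measurableSet_Ioi
    intro r hr
    apply ENNReal.ofReal_le_ofReal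
    have hr0 : (0 : ℝ) < r := hr
    exact mul_le_mul_of_nonneg_right
      (Real.rpow_le_rpow (hnn k r) (hle k r hr0) (by linarith)) (by positivity)
  have hinner : ∀ r : ℝ, 0 < r → Tendsto
      (fun k : ℕ => ∫⁻ s in Ioi r, ENNReal.ofReal (χ s * eta k s)) atTop
      (𝓝 (∫⁻ s in Ioi r, ENNReal.ofReal (χ s))) := by
    intro r hr
    apply lintegral_tendsto_of_tendsto_of_monotone
    · intro k
      exact (ENNReal.continuous_ofReal.comp (hsm k).continuous).measurable.aemeasurable
    · filter_upwards [ae_restrict_mem measurableSet_Ioi] with s hs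
      have hs0 : (0 : ℝ) < s := lt_trans hr hs
      intro j k hjk
      apply ENNReal.ofReal_le_ofReal
      exact mul_le_mul_of_nonneg_left (eta_mono s hs0 hjk) (hχ0 s hs0)
    · filter_upwards [ae_restrict_mem measurableSet_Ioi] with s hs
      have hs0 : (0 : ℝ) < s := lt_trans hr hs
      apply tendsto_const_nhds.congr'
      filter_upwards [eta_eventually s hs0] with k hk
      rw [hk, mul_one]
  have hmonoI : ∀ r : ℝ, 0 < r → Monotone
      (fun k : ℕ => ∫⁻ s in Ioi r, ENNReal.ofReal (χ s * eta k s)) := by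
    intro r hr j k hjk
    apply setLIntegral_mono' measurableSet_Ioi
    intro s hs
    have hs0 : (0 : ℝ) < s := lt_trans hr hs
    apply ENNReal.ofReal_le_ofReal
    exact mul_le_mul_of_nonneg_left (eta_mono s hs0 hjk) (hχ0 s hs0)
  have houter : Tendsto (fun k : ℕ => ∫⁻ r in Ioi (0 : ℝ),
      (∫⁻ s in Ioi r, ENNReal.ofReal (χ s * eta k s)) ^
        ((2 * (n : ℝ) + 2) * p / (2 * n + 2 - p)) *
        ENNReal.ofReal (r ^ (2 * (n : ℝ) + 1))) atTop
      (𝓝 (∫⁻ r in Ioi (0 : ℝ),
      (∫⁻ s in Ioi r, ENNReal.ofReal (χ s)) ^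
        ((2 * (n : ℝ) + 2) * p / (2 * n + 2 - p)) *
        ENNReal.ofReal (r ^ (2 * (n : ℝ) + 1)))) := by
    apply lintegral_tendsto_of_tendsto_of_monotone
    · intro k
      apply Measurable.aemeasurable
      apply Measurable.mul
      · apply Measurable.pow_const
        apply Antitone.measurable
        intro a b hab
        exact lintegral_mono_set (Ioi_subset_Ioi hab)
      · exact (measurable_id.pow_const _).ennreal_ofReal
    · filter_upwards [ae_restrict_mem measurableSet_Ioi] with r hr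
      intro j k hjk
      exact mul_le_mul_left (ENNReal.rpow_le_rpow (hmonoI r hr hjk) hq) _
    · filter_upwards [ae_restrict_mem measurableSet_Ioi] with r hr
      apply ENNReal.Tendsto.mul_const _ (Or.inr ENNReal.ofReal_ne_top)
      exact (ENNReal.continuous_rpow_const.tendsto _).comp (hinner r hr)
  have hfin := (ENNReal.continuous_rpow_const (y := (2 * (n : ℝ) + 2 - p) / (2 * n + 2))).tendsto
    (ENNReal.ofReal (sg n 0) * ∫⁻ r in Ioi (0 : ℝ),
      (∫⁻ s in Ioi r, ENNReal.ofReal (χ s)) ^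
        ((2 * (n : ℝ) + 2) * p / (2 * n + 2 - p)) *
        ENNReal.ofReal (r ^ (2 * (n : ℝ) + 1)))
  have hfin2 := hfin.comp (ENNReal.Tendsto.const_mul houter (Or.inr ENNReal.ofReal_ne_top))
  exact le_of_tendsto' hfin2 key

end Pool.Agent.H50.HQ
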